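import Pool.Agent.Work.MP_4ab57e_an.Main

/-!
# MP_4ab57e_an: Riesz-potential capacities of Hardy spaces versus Hausdorff content

Full positive answer to Q1: for every `n ≥ 1`, `α > 0` and `0 < p ≤ n / (n + α)` the capacity
`cap_{α,p}` attached to the Riesz potentials of the real Hardy space `H^p(ℝⁿ)` is comparable, on all
compact sets, to the Hausdorff content `H^{n - αp}_∞`.

Lower bound for the capacity: Gaussian subordination writes the Riesz potential as an integral of
heat extensions; at scale `2^k` the heat extension at `x` is at most the infimum over the dyadic
cube of side `2^k` around `x` of the nontangential maximal function, and a stopping time argument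
on the dyadic tree bounds the content.

Upper bound for the capacity: a finite family of dyadic cubes covering the compact set may be
assumed to satisfy the packing condition. To each cube `Q` of the family one attaches a much
smaller cube `R_Q` inside the parent of `Q`, carrying at most the average part of the content of
the family, and a function equal to `1` on `Q`, nonnegative off `R_Q`, with vanishing moments. The
negative parts on the cubes `R_Q` are compensated by raising the amplitudes of the cubes of the
family inside `R_Q`, and this costs only a factor `2` because `p (n + M - 1) < n`, where `M` is the
number of vanishing moments needed.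
-/

set_option autoImplicit false

namespace Pool.Agent.Results.MP_4ab57e_an.CapContent

open Pool.Agent.Work.MP_4ab57e_an
open scoped ENNReal NNReal

/-- Q1 of MP_4ab57e_an. -/
theorem result :
    ∀ (n : ℕ) (α p : ℝ), 1 ≤ n → 0 < α → 0 < p → p ≤ n / (n + α) →
      ∃ C : ℝ≥0, 1 ≤ C ∧ ∀ K : Set (Eu n), IsCompact K →
        (C : ℝ≥0∞)⁻¹ * hContent (n - α * p) K ≤ rieszCap α p K ∧
          rieszCap α p K ≤ C * hContent (n - α * p) K :=
  main_theorem

end Pool.Agent.Results.MP_4ab57e_an.CapContent
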